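import Pool.Agent.helper44.MDG.Spec

/-!
# Project MG (MP_05a1de_lc), row BRG
-/

set_option autoImplicit false

namespace Pool.Agent.helper44.MDG

theorem BRG_play {V : Type} [DecidableEq V] {G : SimpleGraph V} {N : V → Finset V}
    (hN : ∀ v u, u ∈ N v ↔ (u = v ∨ G.Adj v u)) {S U : Finset V} (hU : ∀ u, u ∈ U ↔ ¬ Dom G S u) (v : V) :
    Playable G S v ↔ ¬ Disjoint (N v) U := by
  rw [Finset.not_disjoint_iff]
  constructor
  · rintro ⟨-, u, h1, h2⟩
    exact ⟨u, (hN v u).2 h1, (hU u).2 h2⟩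
  · rintro ⟨u, h1, h2⟩
    have h3 := (hN v u).1 h1
    have h4 := (hU u).1 h2
    refine ⟨fun hv => h4 ?_, u, h3, h4⟩
    rcases h3 with h3 | h3
    · rw [h3]
      exact Or.inl hv
    · exact Or.inr ⟨v, hv, h3.symm⟩

theorem BRG_step {V : Type} [DecidableEq V] {G : SimpleGraph V} {N : V → Finset V}
    (hN : ∀ v u, u ∈ N v ↔ (u = v ∨ G.Adj v u)) {S U : Finset V} (hU : ∀ u, u ∈ U ↔ ¬ Dom G S u) (v : V) :
    ∀ u, u ∈ U \ N v ↔ ¬ Dom G (insert v S) u := by
  intro u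
  rw [Finset.mem_sdiff, hU u, hN v u]
  unfold Dom
  constructor
  · rintro ⟨h1, h2⟩ h3
    rcases h3 with h3 | ⟨w, hw, h3⟩
    · rcases Finset.mem_insert.1 h3 with h4 | h4
      · exact h2 (Or.inl h4)
      · exact h1 (Or.inl h4)
    · rcases Finset.mem_insert.1 hw with h4 | h4
      · rw [h4] at h3
        exact h2 (Or.inr h3.symm)
      · exact h1 (Or.inr ⟨w, h4, h3⟩)
  · intro h1
    refine ⟨fun h2 => h1 ?_, fun h2 => h1 ?_⟩
    · rcases h2 with h2 | ⟨w, hw, h2⟩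
      · exact Or.inl (Finset.mem_insert_of_mem h2)
      · exact Or.inr ⟨w, Finset.mem_insert_of_mem hw, h2⟩
    · rcases h2 with h2 | h2
      · rw [h2]
        exact Or.inl (Finset.mem_insert_self _ _)
      · exact Or.inr ⟨v, Finset.mem_insert_self _ _, h2.symm⟩

theorem BRG_gen {V : Type} [DecidableEq V] {G : SimpleGraph V} {N : V → Finset V} {c : V → Bool} {p : Bool}
    (hN : ∀ v u, u ∈ N v ↔ (u = v ∨ G.Adj v u)) {m : Bool} {U : Finset V} (h : WU N c p m U) :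
    ∀ S : Finset V, (∀ u, u ∈ U ↔ ¬ Dom G S u) → Wins G c p m S := by
  induction h with
  | done U h1 =>
    intro S hU
    exact Wins.done S fun v hv hp => (BRG_play hN hU v).1 hp (h1 v hv)
  | own U v hv hd _ ih =>
    intro S hU
    exact Wins.own S v hv ((BRG_play hN hU v).2 hd) (ih (insert v S) (BRG_step hN hU v))
  | opp U h1 _ ih =>
    intro S hU
    obtain ⟨v, hv, hd⟩ := h1
    exact Wins.opp S ⟨v, hv, (BRG_play hN hU v).2 hd⟩ fun w hw hp =>
      ih w hw ((BRG_play hN hU w).1 hp) (insert w S) (BRG_step hN hU w)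

theorem BRG : BRG_stmt := by
  intro V _ _ G N c p m hN h
  refine BRG_gen hN h ∅ fun u => ?_
  unfold Dom
  simp

end Pool.Agent.helper44.MDG
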